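import Pool.Agent.helper47.SPI.Spec

/-!
Row AV2 of SPI: averaging in two directions.
-/

set_option autoImplicit false

namespace Pool.Agent.SPI

open Finset Pool.Agent.helper85.PG

lemma AV2_cs {p : ℕ} [NeZero p] (u v : ZMod p → ℝ) (U V : ℝ) (hU : 0 ≤ U) (hV : 0 ≤ V)
    (hu : ∑ t : ZMod p, u t ^ 2 ≤ U ^ 2) (hv : ∑ t : ZMod p, v t ^ 2 ≤ V ^ 2) :
    ∑ t : ZMod p, u t * v t ≤ U * V := by
  have h1 : (∑ t : ZMod p, u t * v t) ^ 2 ≤ (∑ t : ZMod p, u t ^ 2) * ∑ t : ZMod p, v t ^ 2 :=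
    Finset.sum_mul_sq_le_sq_mul_sq _ _ _
  have h2 : (∑ t : ZMod p, u t ^ 2) * ∑ t : ZMod p, v t ^ 2 ≤ U ^ 2 * V ^ 2 :=
    mul_le_mul hu hv (Finset.sum_nonneg fun t _ => sq_nonneg _) (sq_nonneg _)
  have h3 : (∑ t : ZMod p, u t * v t) ^ 2 ≤ (U * V) ^ 2 := by
    rw [mul_pow]; exact h1.trans h2
  exact (abs_le.1 (abs_le_of_sq_le_sq h3 (mul_nonneg hU hV))).2

lemma AV2_tr {p : ℕ} [NeZero p] {M : Type*} [AddCommMonoid M] (F : ZMod p → M) (s : ZMod p) :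
    ∑ t : ZMod p, F (t + s) = ∑ t : ZMod p, F t :=
  Equiv.sum_comp (Equiv.addRight s) F

lemma AV2_one {p : ℕ} [NeZero p] (c f g : ZMod p → ℂ) (a b : ZMod p) (Nf Ng Ef Eg : ℝ)
    (hc : ∀ t, ‖c t‖ ≤ 1) (hNf : 0 ≤ Nf) (hNg : 0 ≤ Ng) (hEf : 0 ≤ Ef) (hEg : 0 ≤ Eg)
    (hf : ∑ t : ZMod p, ‖f t‖ ^ 2 ≤ Nf ^ 2) (hg : ∑ t : ZMod p, ‖g t‖ ^ 2 ≤ Ng ^ 2)
    (hfa : ∑ t : ZMod p, ‖f (t + a) - f t‖ ^ 2 ≤ Ef ^ 2)
    (hgb : ∑ t : ZMod p, ‖g (t + b) - g t‖ ^ 2 ≤ Eg ^ 2) :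
    ‖∑ t : ZMod p, c t * f t * g t - ∑ t : ZMod p, c (t + a + b) * f (t + b) * g (t + a)‖ ≤
      Ef * Ng + Nf * Eg := by
  have h1 : ∑ t : ZMod p, c t * f t * g t =
      ∑ t : ZMod p, c (t + a + b) * f (t + a + b) * g (t + a + b) := by
    rw [← AV2_tr (fun t => c t * f t * g t) (a + b)]
    refine Finset.sum_congr rfl fun t _ => ?_
    simp only [add_assoc]
  have h2 : ∑ t : ZMod p, c t * f t * g t -
      ∑ t : ZMod p, c (t + a + b) * f (t + b) * g (t + a) =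
      ∑ t : ZMod p, c (t + a + b) * (f (t + b + a) - f (t + b)) * g (t + a + b) +
      ∑ t : ZMod p, c (t + a + b) * f (t + b) * (g (t + a + b) - g (t + a)) := by
    rw [h1, ← Finset.sum_sub_distrib, ← Finset.sum_add_distrib]
    refine Finset.sum_congr rfl fun t _ => ?_
    rw [show t + b + a = t + a + b by ring]
    ring
  have h3 : ‖∑ t : ZMod p, c (t + a + b) * (f (t + b + a) - f (t + b)) * g (t + a + b)‖ ≤
      Ef * Ng := by
    calc ‖∑ t : ZMod p, c (t + a + b) * (f (t + b + a) - f (t + b)) * g (t + a + b)‖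
        ≤ ∑ t : ZMod p, ‖f (t + b + a) - f (t + b)‖ * ‖g (t + a + b)‖ := by
          refine (norm_sum_le _ _).trans (Finset.sum_le_sum fun t _ => ?_)
          rw [norm_mul, norm_mul]
          refine mul_le_mul_of_nonneg_right ?_ (norm_nonneg _)
          exact mul_le_of_le_one_left (norm_nonneg _) (hc _)
      _ ≤ Ef * Ng := by
          refine AV2_cs _ _ Ef Ng hEf hNg ?_ ?_
          · rw [AV2_tr (fun t => ‖f (t + a) - f t‖ ^ 2) b]
            exact hfa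
          · have : ∑ t : ZMod p, ‖g (t + a + b)‖ ^ 2 = ∑ t : ZMod p, ‖g t‖ ^ 2 := by
              rw [← AV2_tr (fun t => ‖g t‖ ^ 2) (a + b)]
              refine Finset.sum_congr rfl fun t _ => ?_
              simp only [add_assoc]
            rw [this]
            exact hg
  have h4 : ‖∑ t : ZMod p, c (t + a + b) * f (t + b) * (g (t + a + b) - g (t + a))‖ ≤
      Nf * Eg := by
    calc ‖∑ t : ZMod p, c (t + a + b) * f (t + b) * (g (t + a + b) - g (t + a))‖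
        ≤ ∑ t : ZMod p, ‖f (t + b)‖ * ‖g (t + a + b) - g (t + a)‖ := by
          refine (norm_sum_le _ _).trans (Finset.sum_le_sum fun t _ => ?_)
          rw [norm_mul, norm_mul]
          refine mul_le_mul_of_nonneg_right ?_ (norm_nonneg _)
          exact mul_le_of_le_one_left (norm_nonneg _) (hc _)
      _ ≤ Nf * Eg := by
          refine AV2_cs _ _ Nf Eg hNf hEg ?_ ?_
          · rw [AV2_tr (fun t => ‖f t‖ ^ 2) b]
            exact hf
          · rw [AV2_tr (fun t => ‖g (t + b) - g t‖ ^ 2) a]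
            exact hgb
  rw [h2]
  exact (norm_add_le _ _).trans (add_le_add h3 h4)

theorem AV2 : AV2_stmt := by
  intro p _ c f g ζ h Nf Ng Ef Eg hh hc hNf hNg hEf hEg hf hg hfx hgy
  set T : ℂ := ∑ t : ZMod p, c t * f t * g t with hT
  set P : ℕ → ℕ → ℂ := fun x y => ∑ t : ZMod p,
    c (t + (x : ZMod p) + ζ * (y : ZMod p)) * f (t + ζ * (y : ZMod p)) * g (t + (x : ZMod p)) with hP
  have hone : ∀ x ∈ range h, ∀ y ∈ range h, ‖T - P x y‖ ≤ Ef * Ng + Nf * Eg := by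
    intro x hx y hy
    exact AV2_one c f g (x : ZMod p) (ζ * (y : ZMod p)) Nf Ng Ef Eg hc hNf hNg hEf hEg hf hg
      (hfx x (Finset.mem_range.1 hx)) (hgy y (Finset.mem_range.1 hy))
  have hsum : (h : ℂ) ^ 2 * T = ∑ x ∈ range h, ∑ y ∈ range h, P x y +
      ∑ x ∈ range h, ∑ y ∈ range h, (T - P x y) := by
    rw [← Finset.sum_add_distrib]
    have : ∀ x ∈ range h, ∑ y ∈ range h, P x y + ∑ y ∈ range h, (T - P x y) = (h : ℂ) * T := by
      intro x _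
      rw [← Finset.sum_add_distrib]
      have h1 : ∀ y ∈ range h, P x y + (T - P x y) = T := fun y _ => by ring
      rw [Finset.sum_congr rfl h1, Finset.sum_const, Finset.card_range, nsmul_eq_mul]
    rw [Finset.sum_congr rfl this, Finset.sum_const, Finset.card_range, nsmul_eq_mul]
    ring
  have hPs : ‖∑ x ∈ range h, ∑ y ∈ range h, P x y‖ ≤
      ∑ t : ZMod p, ‖∑ x ∈ range h, ∑ y ∈ range h,
        c (t + (x : ZMod p) + ζ * (y : ZMod p)) * f (t + ζ * (y : ZMod p)) * g (t + (x : ZMod p))‖ := by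
    have h1 : ∑ x ∈ range h, ∑ y ∈ range h, P x y = ∑ t : ZMod p, ∑ x ∈ range h, ∑ y ∈ range h,
        c (t + (x : ZMod p) + ζ * (y : ZMod p)) * f (t + ζ * (y : ZMod p)) * g (t + (x : ZMod p)) := by
      have h2 : ∀ x ∈ range h, ∑ y ∈ range h, P x y = ∑ t : ZMod p, ∑ y ∈ range h,
          c (t + (x : ZMod p) + ζ * (y : ZMod p)) * f (t + ζ * (y : ZMod p)) *
            g (t + (x : ZMod p)) := fun x _ => Finset.sum_comm
      rw [Finset.sum_congr rfl h2, Finset.sum_comm]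
    rw [h1]
    exact norm_sum_le _ _
  have hEs : ‖∑ x ∈ range h, ∑ y ∈ range h, (T - P x y)‖ ≤ (h : ℝ) ^ 2 * (Ef * Ng + Nf * Eg) := by
    calc ‖∑ x ∈ range h, ∑ y ∈ range h, (T - P x y)‖
        ≤ ∑ x ∈ range h, ∑ y ∈ range h, ‖T - P x y‖ := by
          refine (norm_sum_le _ _).trans (Finset.sum_le_sum fun x _ => norm_sum_le _ _)
      _ ≤ ∑ x ∈ range h, ∑ y ∈ range h, (Ef * Ng + Nf * Eg) :=
          Finset.sum_le_sum fun x hx => Finset.sum_le_sum fun y hy => hone x hx y hy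
      _ = (h : ℝ) ^ 2 * (Ef * Ng + Nf * Eg) := by
          rw [Finset.sum_const, Finset.sum_const, Finset.card_range, nsmul_eq_mul, nsmul_eq_mul]
          ring
  have hh0 : (0 : ℝ) < (h : ℝ) ^ 2 := by positivity
  have hfin : (h : ℝ) ^ 2 * ‖T‖ ≤
      (∑ t : ZMod p, ‖∑ x ∈ range h, ∑ y ∈ range h,
        c (t + (x : ZMod p) + ζ * (y : ZMod p)) * f (t + ζ * (y : ZMod p)) * g (t + (x : ZMod p))‖) +
      (h : ℝ) ^ 2 * (Ef * Ng + Nf * Eg) := by
    have h1 : (h : ℝ) ^ 2 * ‖T‖ = ‖(h : ℂ) ^ 2 * T‖ := by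
      rw [norm_mul, norm_pow, Complex.norm_natCast]
    rw [h1, hsum]
    exact (norm_add_le _ _).trans (add_le_add hPs hEs)
  rw [add_assoc, ← sub_le_iff_le_add, le_div_iff₀ hh0]
  nlinarith [hfin]

end Pool.Agent.SPI
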